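import Pool.Agent.W313.HB.Stm
import Pool.Agent.H341R2.WeilSharp

set_option autoImplicit false

/-!
# Character sums of the values of a polynomial
-/

namespace Pool.Agent.W460.HB

open Finset Polynomial
open Pool.Agent.W313.HB

theorem eval_red (F : ℤ[X]) (q : ℕ) (z : ℤ) :
    ((F.eval z : ℤ) : ZMod q) = (F.map (Int.castRingHom (ZMod q))).eval (z : ZMod q) := by
  rw [eval_intCast_map]
  rfl

/-- an integral Bezout identity -/
theorem bezout (F : ℤ[X]) (h : (F.map (Int.castRingHom ℚ)).Separable) :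
    ∃ (D : ℤ) (u v : ℤ[X]), D ≠ 0 ∧ u * F + v * derivative F = C D := by
  obtain ⟨a, b, hab⟩ := h
  obtain ⟨m, hm, hm'⟩ := IsLocalization.integerNormalization_spec (nonZeroDivisors ℤ) a
  obtain ⟨n, hn, hn'⟩ := IsLocalization.integerNormalization_spec (nonZeroDivisors ℤ) b
  have hm0 : m ≠ 0 := nonZeroDivisors.ne_zero hm
  have hn0 : n ≠ 0 := nonZeroDivisors.ne_zero hn
  obtain ⟨a', ha'⟩ : ∃ a' : ℤ[X], a' = IsLocalization.integerNormalization (nonZeroDivisors ℤ) a :=
    ⟨_, rfl⟩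
  obtain ⟨b', hb'⟩ : ∃ b' : ℤ[X], b' = IsLocalization.integerNormalization (nonZeroDivisors ℤ) b :=
    ⟨_, rfl⟩
  rw [← ha'] at hm'
  rw [← hb'] at hn'
  refine ⟨m * n, C n * a', C m * b', mul_ne_zero hm0 hn0, ?_⟩
  apply Polynomial.map_injective (algebraMap ℤ ℚ) (algebraMap ℤ ℚ).injective_int
  have e1 : a'.map (algebraMap ℤ ℚ) = C (m : ℚ) * a := by
    rw [hm']
    ext k
    simp
  have e2 : b'.map (algebraMap ℤ ℚ) = C (n : ℚ) * b := by
    rw [hn']
    ext k
    simp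
  have e3 : Int.castRingHom ℚ = algebraMap ℤ ℚ := rfl
  rw [e3] at hab
  rw [Polynomial.map_add, Polynomial.map_mul, Polynomial.map_mul, Polynomial.map_mul,
    Polynomial.map_mul, map_C, map_C, map_C, e1, e2, ← derivative_map]
  have e4 : (algebraMap ℤ ℚ) n = (n : ℚ) := rfl
  have e5 : (algebraMap ℤ ℚ) m = (m : ℚ) := rfl
  rw [map_mul, e4, e5, C_mul]
  linear_combination (C (m : ℚ) * C (n : ℚ)) * hab

theorem castne {D : ℤ} (hD : D ≠ 0) {q : ℕ} (hq : D.natAbs < q) : (D : ZMod q) ≠ 0 := by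
  intro h
  rw [ZMod.intCast_zmod_eq_zero_iff_dvd] at h
  have h1 := Int.natAbs_dvd_natAbs.2 h
  rw [Int.natAbs_natCast] at h1
  have h2 := Nat.le_of_dvd (Int.natAbs_pos.2 hD) h1
  omega

theorem core (F : ℤ[X]) (hF : Good F) : ∃ z0 : ℕ, ∀ (q : ℕ) [Fact q.Prime], z0 ≤ q →
    |∑ y : ZMod q, (quadraticChar (ZMod q) ((F.map (Int.castRingHom (ZMod q))).eval y) : ℝ)| ≤
      F.natDegree * √(q : ℝ) := by
  obtain ⟨D, u, v, hD, hb⟩ := bezout F hF.1
  have hF0 : F ≠ 0 := by
    rintro rfl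
    have := hF.2
    simp at this
  have hlc : F.leadingCoeff ≠ 0 := leadingCoeff_ne_zero.2 hF0
  refine ⟨D.natAbs + F.leadingCoeff.natAbs + 3, fun q hq hz => ?_⟩
  have h1 : (D : ZMod q) ≠ 0 := castne hD (by omega)
  have h2 : (F.leadingCoeff : ZMod q) ≠ 0 := castne hlc (by omega)
  obtain ⟨f, hf⟩ : ∃ f, f = F.map (Int.castRingHom (ZMod q)) := ⟨_, rfl⟩
  have hdeg : f.natDegree = F.natDegree := by
    rw [hf]
    exact natDegree_map_of_leadingCoeff_ne_zero _ h2
  have hsep : f.Separable := by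
    have h3 := congrArg (Polynomial.map (Int.castRingHom (ZMod q))) hb
    rw [Polynomial.map_add, Polynomial.map_mul, Polynomial.map_mul, map_C, ← derivative_map,
      ← hf] at h3
    have h4 : (C ((D : ZMod q)⁻¹) : (ZMod q)[X]) * C ((Int.castRingHom (ZMod q)) D) = 1 := by
      rw [← C_mul]
      have : ((Int.castRingHom (ZMod q)) D) = (D : ZMod q) := rfl
      rw [this, inv_mul_cancel₀ h1, C_1]
    refine ⟨C ((D : ZMod q)⁻¹) * u.map (Int.castRingHom (ZMod q)),
      C ((D : ZMod q)⁻¹) * v.map (Int.castRingHom (ZMod q)), ?_⟩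
    rw [← h4, ← h3]
    ring
  have hring : ringChar (ZMod q) ≠ 2 := by
    rw [ZMod.ringChar_zmod_n]
    omega
  have h5 := Pool.Agent.H341R2.Sharp.weil_sharp hring f (by rw [hdeg]; exact hF.2) (by
    intro c h hch
    have h6 : IsUnit h := hsep.squarefree h ⟨C c, by rw [hch]; ring⟩
    have h7 : f.natDegree = 0 := by
      obtain ⟨r, hr⟩ := Polynomial.isUnit_iff.1 h6
      rw [hch, ← hr.2, ← C_pow, ← C_mul, natDegree_C]
    have := hF.2
    omega)
  rw [ZMod.card, hdeg] at h5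
  rw [hf] at h5
  refine h5.trans (mul_le_mul_of_nonneg_right (by linarith) (Real.sqrt_nonneg _))

theorem sum_range_zmod {q : ℕ} [NeZero q] {A : Type*} [AddCommMonoid A] (g : ZMod q → A) :
    ∑ x ∈ range q, g ((x : ℕ) : ZMod q) = ∑ y : ZMod q, g y := by
  refine Finset.sum_nbij (fun x : ℕ => (x : ZMod q)) (fun _ _ => mem_univ _) ?_ ?_
    (fun _ _ => rfl)
  · intro x hx y hy hxy
    have h1 := (ZMod.natCast_eq_natCast_iff' x y q).1 hxy
    rwa [Nat.mod_eq_of_lt (mem_range.1 (mem_coe.1 hx)),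
      Nat.mod_eq_of_lt (mem_range.1 (mem_coe.1 hy))] at h1
  · intro y _
    exact ⟨y.val, mem_coe.2 (mem_range.2 (ZMod.val_lt y)), ZMod.natCast_zmod_val y⟩

/-- WEIL -/
theorem weil_ : S_WEIL := by
  intro F hF
  obtain ⟨z0, hz0⟩ := core F hF
  refine ⟨z0, F.natDegree, by positivity, fun q hq hz t1 M hM => ?_⟩
  have : Fact q.Prime := ⟨hq⟩
  have hM' : (M : ZMod q) ≠ 0 := fun h => hM ((ZMod.natCast_eq_zero_iff M q).1 h)
  refine le_of_eq_of_le ?_ (hz0 q hz)
  congr 1
  have h1 : ∀ x ∈ range q, jacobiSym (W313.HB.val F t1 M x) q = quadraticChar (ZMod q)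
      ((F.map (Int.castRingHom (ZMod q))).eval ((t1 : ZMod q) + (M : ZMod q) * ((x : ℕ) : ZMod q))) := by
    intro x _
    rw [← jacobiSym.legendreSym.to_jacobiSym, legendreSym, W313.HB.val, eval_red]
    push_cast
    rfl
  rw [sum_congr rfl h1, sum_range_zmod (fun y : ZMod q => quadraticChar (ZMod q)
      ((F.map (Int.castRingHom (ZMod q))).eval ((t1 : ZMod q) + (M : ZMod q) * y)))]
  push_cast
  refine Fintype.sum_equiv ((Equiv.mulLeft₀ (M : ZMod q) hM').trans (Equiv.addLeft (t1 : ZMod q))) _ _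
    (fun y => ?_)
  rfl

theorem cnt (P : ℤ[X]) (p : ℕ) [Fact p.Prime] (hP : P.map (Int.castRingHom (ZMod p)) ≠ 0) :
    ((range p).filter (fun x : ℕ => (p : ℤ) ∣ P.eval (x : ℤ))).card ≤ P.natDegree := by
  classical
  have h1 : ((range p).filter (fun x : ℕ => (p : ℤ) ∣ P.eval (x : ℤ))).card ≤
      ((P.map (Int.castRingHom (ZMod p))).roots.toFinset).card := by
    refine card_le_card_of_injOn (fun x : ℕ => (x : ZMod p)) (fun x hx => ?_) (fun x hx y hy hxy => ?_)
    · have hx' := (mem_filter.1 (mem_coe.1 hx)).2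
      rw [mem_coe, Multiset.mem_toFinset, mem_roots hP, IsRoot.def]
      have h2 := eval_red P p (x : ℤ)
      rw [(ZMod.intCast_zmod_eq_zero_iff_dvd _ p).2 hx'] at h2
      rw [h2]
      push_cast
      rfl
    · have h1 := (ZMod.natCast_eq_natCast_iff' x y p).1 hxy
      rwa [Nat.mod_eq_of_lt (mem_range.1 (mem_filter.1 (mem_coe.1 hx)).1),
        Nat.mod_eq_of_lt (mem_range.1 (mem_filter.1 (mem_coe.1 hy)).1)] at h1
  exact h1.trans ((Multiset.toFinset_card_le _).trans ((card_roots' _).trans natDegree_map_le))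

theorem redne (P : ℤ[X]) (hP : P ≠ 0) {p : ℕ} (hp : P.leadingCoeff.natAbs < p) :
    P.map (Int.castRingHom (ZMod p)) ≠ 0 := by
  intro h
  have h1 := congrArg (fun f => f.coeff P.natDegree) h
  simp only [coeff_map, coeff_zero] at h1
  exact castne (leadingCoeff_ne_zero.2 hP) hp h1

/-- EXIST -/
theorem exist_ (h : S_WEIL) : S_EXIST := by
  intro F G hF hG
  obtain ⟨z0, C, hC, hz0⟩ := h F hF
  have hF0 : F ≠ 0 := by
    rintro rfl
    have := hF.2
    simp at this
  obtain ⟨K, hK⟩ : ∃ K : ℕ, (C + F.natDegree + 2 * G.natDegree + 1) ^ 2 < K := exists_nat_gt _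
  refine ⟨z0 + F.leadingCoeff.natAbs + G.leadingCoeff.natAbs + K + 3, fun p hp hz σ hσ => ?_⟩
  have : Fact p.Prime := ⟨hp⟩
  by_contra hno
  push Not at hno
  have hs := hz0 p hp (by omega) 0 1 (by
    rw [Nat.dvd_one]
    exact hp.ne_one)
  have e1 : ∀ x : ℕ, W313.HB.val F 0 1 x = F.eval (x : ℤ) := by
    intro x
    unfold W313.HB.val
    congr 1
    push_cast
    ring
  simp only [e1] at hs
  have c1 := cnt F p (redne F hF0 (by omega))
  have c2 := cnt G p (redne G hG (by omega))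
  have h1 : ∀ x ∈ range p, (1 + σ * jacobiSym (F.eval (x : ℤ)) p : ℤ) ≤
      (if (p : ℤ) ∣ F.eval (x : ℤ) then 1 else 0) + 2 * (if (p : ℤ) ∣ G.eval (x : ℤ) then 1 else 0) := by
    intro x hx
    have h2 := hno x (mem_range.1 hx)
    rcases jacobiSym.trichotomy (F.eval (x : ℤ)) p with h3 | h3 | h3
    · have h4 : (p : ℤ) ∣ F.eval (x : ℤ) := by
        rw [← jacobiSym.legendreSym.to_jacobiSym] at h3
        exact (ZMod.intCast_zmod_eq_zero_iff_dvd _ p).1 ((legendreSym.eq_zero_iff p _).1 h3)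
      rw [h3, if_pos h4]
      split_ifs <;> norm_num
    · rw [h3] at h2 ⊢
      rcases hσ with h5 | h5
      · rw [if_pos (h2 h5.symm), h5]
        split_ifs <;> norm_num
      · rw [h5]
        split_ifs <;> norm_num
    · rw [h3] at h2 ⊢
      rcases hσ with h5 | h5
      · rw [h5]
        split_ifs <;> norm_num
      · rw [if_pos (h2 h5.symm), h5]
        split_ifs <;> norm_num
  have h2 := sum_le_sum h1
  rw [sum_add_distrib, sum_add_distrib, ← mul_sum, ← mul_sum, sum_boole, sum_boole, sum_const,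
    card_range] at h2
  have h3 : (((p : ℤ) + σ * ∑ x ∈ range p, jacobiSym (F.eval (x : ℤ)) p : ℤ) : ℝ) ≤
      (((F.natDegree : ℤ) + 2 * (G.natDegree : ℤ) : ℤ) : ℝ) := by
    have h4 : ((p : ℤ) + σ * ∑ x ∈ range p, jacobiSym (F.eval (x : ℤ)) p : ℤ) ≤
      ((F.natDegree : ℤ) + 2 * (G.natDegree : ℤ) : ℤ) := by
      simp only [nsmul_eq_mul, mul_one] at h2
      refine h2.trans ?_
      have c1' : (((range p).filter (fun x : ℕ => (p : ℤ) ∣ F.eval (x : ℤ))).card : ℤ) ≤
        F.natDegree := by exact_mod_cast c1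
      have c2' : (((range p).filter (fun x : ℕ => (p : ℤ) ∣ G.eval (x : ℤ))).card : ℤ) ≤
        G.natDegree := by exact_mod_cast c2
      linarith
    exact_mod_cast h4
  rw [Int.cast_add, Int.cast_mul] at h3
  obtain ⟨S, hS⟩ : ∃ S : ℝ, S = ((∑ x ∈ range p, jacobiSym (F.eval (x : ℤ)) p : ℤ) : ℝ) := ⟨_, rfl⟩
  rw [← hS] at h3 hs
  have h6 : -(C * √(p : ℝ)) ≤ (σ : ℝ) * S := by
    have := abs_le.1 hs
    rcases hσ with h5 | h5
    · rw [h5]
      push_cast
      linarith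
    · rw [h5]
      push_cast
      linarith
  have h7 : (C + F.natDegree + 2 * G.natDegree + 1) < √(p : ℝ) := by
    rw [Real.lt_sqrt (by positivity)]
    refine hK.trans_le ?_
    have : K ≤ p := by omega
    exact_mod_cast this
  have h8 : √(p : ℝ) * √(p : ℝ) = p := Real.mul_self_sqrt (by positivity)
  have h9 : (0 : ℝ) ≤ F.natDegree := Nat.cast_nonneg _
  have h10 : (0 : ℝ) ≤ G.natDegree := Nat.cast_nonneg _
  push_cast at h3
  nlinarith

end Pool.Agent.W460.HB
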