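import Pool.Agent.W313.HB.Stm2

set_option autoImplicit false

/-!
# The generic discriminant of the restrictions to lines
-/

namespace Pool.Agent.W460.HB

open Polynomial
open Pool.Agent.W313.HB (S_LDEG S_DISC lineP)

namespace Disc

/-- the restriction to a line over any ring -/
noncomputable def lin {n : ℕ} {B : Type} [CommRing B] (w v : Fin (n + 1) → B)
    (F : MvPolynomial (Fin (n + 1)) ℤ) : B[X] :=
  MvPolynomial.aeval (fun i => (C (w i) + C (v i) * X : B[X])) F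

theorem lin_map {n : ℕ} {B B' : Type} [CommRing B] [CommRing B'] (ψ : B →+* B')
    (w v : Fin (n + 1) → B) (F : MvPolynomial (Fin (n + 1)) ℤ) :
    (lin w v F).map ψ = lin (fun i => ψ (w i)) (fun i => ψ (v i)) F := by
  unfold lin
  have h := MvPolynomial.comp_aeval_apply (fun i => (C (w i) + C (v i) * X : B[X]))
    (Polynomial.mapRingHom ψ).toIntAlgHom F
  have e : (Polynomial.mapRingHom ψ).toIntAlgHom
      (MvPolynomial.aeval (fun i => (C (w i) + C (v i) * X : B[X])) F) =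
      (MvPolynomial.aeval (fun i => (C (w i) + C (v i) * X : B[X])) F).map ψ := rfl
  refine e.symm.trans (h.trans ?_)
  congr 2
  funext i
  show (C (w i) + C (v i) * X : B[X]).map ψ = _
  rw [Polynomial.map_add, Polynomial.map_mul, map_C, map_C, map_X]

/-- the translation of the generic point -/
noncomputable def τ {n : ℕ} (c : Fin (n + 1) → ℚ) :
    (MvPolynomial (Fin (n + 1)) ℚ)[X] →+* (MvPolynomial (Fin (n + 1)) ℚ)[X] :=
  Polynomial.eval₂RingHom
    (MvPolynomial.eval₂Hom ((C : MvPolynomial (Fin (n + 1)) ℚ →+* _).comp MvPolynomial.C)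
      (fun i => C (MvPolynomial.X i) + C (MvPolynomial.C (c i)) * X)) X

theorem τ_X {n : ℕ} (c : Fin (n + 1) → ℚ) : τ c X = X := by
  unfold τ
  rw [coe_eval₂RingHom, eval₂_X]

theorem τ_C {n : ℕ} (c : Fin (n + 1) → ℚ) (p : MvPolynomial (Fin (n + 1)) ℚ) : τ c (C p) =
    (MvPolynomial.eval₂Hom ((C : MvPolynomial (Fin (n + 1)) ℚ →+* _).comp MvPolynomial.C)
      (fun i => C (MvPolynomial.X i) + C (MvPolynomial.C (c i)) * X)) p := by
  unfold τ
  rw [coe_eval₂RingHom, eval₂_C]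

theorem τ_CC {n : ℕ} (c : Fin (n + 1) → ℚ) (a : ℚ) : τ c (C (MvPolynomial.C a)) =
    C (MvPolynomial.C a) := by
  rw [τ_C, MvPolynomial.eval₂Hom_C]
  rfl

theorem τ_CX {n : ℕ} (c : Fin (n + 1) → ℚ) (i : Fin (n + 1)) : τ c (C (MvPolynomial.X i)) =
    C (MvPolynomial.X i) + C (MvPolynomial.C (c i)) * X := by
  rw [τ_C, MvPolynomial.eval₂Hom_X']

theorem τ_inv {n : ℕ} (c : Fin (n + 1) → ℚ) (p : (MvPolynomial (Fin (n + 1)) ℚ)[X]) :
    τ (fun i => - c i) (τ c p) = p := by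
  have h : (τ (fun i => - c i)).comp (τ c) = RingHom.id _ := by
    apply Polynomial.ringHom_ext'
    · apply MvPolynomial.ringHom_ext
      · intro r
        show τ (fun i => - c i) (τ c (C (MvPolynomial.C r))) = C (MvPolynomial.C r)
        rw [τ_CC, τ_CC]
      · intro i
        show τ (fun i => - c i) (τ c (C (MvPolynomial.X i))) = C (MvPolynomial.X i)
        rw [τ_CX, map_add, map_mul, τ_CC, τ_X, τ_CX, map_neg, map_neg]
        ring
    · show τ (fun i => - c i) (τ c X) = X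
      rw [τ_X, τ_X]
  exact congrArg (fun f => f p) h

theorem lin_eq_τ {n : ℕ} (c : Fin (n + 1) → ℚ) (F : MvPolynomial (Fin (n + 1)) ℤ) :
    lin (fun i => MvPolynomial.X i) (fun i => MvPolynomial.C (c i)) F =
      τ c (C (MvPolynomial.map (Int.castRingHom ℚ) F)) := by
  have h : MvPolynomial.aeval (fun i => (C (MvPolynomial.X i) + C (MvPolynomial.C (c i)) * X :
      (MvPolynomial (Fin (n + 1)) ℚ)[X])) = (((τ c).comp ((C : MvPolynomial (Fin (n + 1)) ℚ →+* _).comp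
        (MvPolynomial.map (Int.castRingHom ℚ)))).toIntAlgHom :
          MvPolynomial (Fin (n + 1)) ℤ →ₐ[ℤ] _) := by
    apply MvPolynomial.algHom_ext
    intro i
    rw [MvPolynomial.aeval_X]
    show _ = τ c (C (MvPolynomial.map (Int.castRingHom ℚ) (MvPolynomial.X i)))
    rw [MvPolynomial.map_X, τ_CX]
  exact congrArg (fun f => f F) h

theorem sqf {n : ℕ} (c : Fin (n + 1) → ℚ) (F : MvPolynomial (Fin (n + 1)) ℚ) (hF0 : F ≠ 0)
    (hF : Squarefree F) (g : (MvPolynomial (Fin (n + 1)) ℚ)[X]) (hg : g * g ∣ τ c (C F)) :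
    IsUnit g := by
  have h1 := map_dvd (τ (fun i => - c i)) hg
  rw [τ_inv, map_mul] at h1
  obtain ⟨G, hG⟩ : ∃ G, G = τ (fun i => - c i) g := ⟨_, rfl⟩
  rw [← hG] at h1
  have hC : (C F : (MvPolynomial (Fin (n + 1)) ℚ)[X]) ≠ 0 := by
    rw [Ne, C_eq_zero]
    exact hF0
  have hG0 : G ≠ 0 := by
    rintro rfl
    rw [zero_mul, zero_dvd_iff] at h1
    exact hC h1
  have h2 := natDegree_le_of_dvd h1 hC
  rw [natDegree_C, natDegree_mul hG0 hG0] at h2
  have h3 : G.natDegree = 0 := by omega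
  obtain ⟨g0, hg0⟩ := natDegree_eq_zero.1 h3
  have h4 := map_dvd (Polynomial.evalRingHom (0 : MvPolynomial (Fin (n + 1)) ℚ)) h1
  rw [map_mul, ← hg0] at h4
  have e1 : ∀ q : MvPolynomial (Fin (n + 1)) ℚ,
      Polynomial.evalRingHom (0 : MvPolynomial (Fin (n + 1)) ℚ) (C q) = q := fun q => by
    rw [coe_evalRingHom, eval_C]
  rw [e1, e1] at h4
  have h5 : IsUnit g0 := hF g0 h4
  have h6 : IsUnit G := by
    rw [← hg0]
    exact h5.map C
  have h7 := h6.map (τ c)
  have h8 := τ_inv (fun i => - c i) g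
  simp only [neg_neg] at h8
  rwa [hG, h8] at h7

theorem den1 {σ : Type} (p : MvPolynomial σ ℚ) : ∃ (N : ℤ) (p' : MvPolynomial σ ℤ), N ≠ 0 ∧
    MvPolynomial.map (Int.castRingHom ℚ) p' = MvPolynomial.C (N : ℚ) * p := by
  induction p using MvPolynomial.induction_on with
  | C a =>
    refine ⟨a.den, MvPolynomial.C a.num, by exact_mod_cast a.den_ne_zero, ?_⟩
    rw [MvPolynomial.map_C, ← MvPolynomial.C_mul]
    congr 1
    have h1 := Rat.mul_den_eq_num a
    have h2 : (Int.castRingHom ℚ) a.num = (a.num : ℚ) := rfl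
    rw [h2, ← h1]
    push_cast
    ring
  | add p q hp hq =>
    obtain ⟨N1, p1, h1, h1'⟩ := hp
    obtain ⟨N2, q1, h2, h2'⟩ := hq
    refine ⟨N1 * N2, MvPolynomial.C N2 * p1 + MvPolynomial.C N1 * q1, mul_ne_zero h1 h2, ?_⟩
    rw [map_add, map_mul, map_mul, MvPolynomial.map_C, MvPolynomial.map_C, h1', h2']
    have e1 : (Int.castRingHom ℚ) N1 = (N1 : ℚ) := rfl
    have e2 : (Int.castRingHom ℚ) N2 = (N2 : ℚ) := rfl
    rw [e1, e2, Int.cast_mul, MvPolynomial.C_mul]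
    ring
  | mul_X p i hp =>
    obtain ⟨N1, p1, h1, h1'⟩ := hp
    refine ⟨N1, p1 * MvPolynomial.X i, h1, ?_⟩
    rw [map_mul, MvPolynomial.map_X, h1', mul_assoc]

theorem den2 {A B : Type} [CommRing A] [IsDomain A] [CommRing B] (φ : A →+* B)
    (h : ∀ b : B, ∃ a a' : A, a ≠ 0 ∧ φ a' = φ a * b) (p : B[X]) :
    ∃ (a : A) (p' : A[X]), a ≠ 0 ∧ p'.map φ = C (φ a) * p := by
  induction p using Polynomial.induction_on' with
  | add p q hp hq =>
    obtain ⟨N1, p1, h1, h1'⟩ := hp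
    obtain ⟨N2, q1, h2, h2'⟩ := hq
    refine ⟨N1 * N2, C N2 * p1 + C N1 * q1, mul_ne_zero h1 h2, ?_⟩
    rw [Polynomial.map_add, Polynomial.map_mul, Polynomial.map_mul, map_C, map_C, h1', h2',
      map_mul, C_mul]
    ring
  | monomial k b =>
    obtain ⟨a, a', ha, haa⟩ := h b
    refine ⟨a, monomial k a', ha, ?_⟩
    rw [map_monomial, haa, C_mul_monomial]

theorem den3 {σ : Type} (b : FractionRing (MvPolynomial σ ℚ)) : ∃ a a' : MvPolynomial σ ℤ, a ≠ 0 ∧
    ((algebraMap (MvPolynomial σ ℚ) (FractionRing (MvPolynomial σ ℚ))).comp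
      (MvPolynomial.map (Int.castRingHom ℚ))) a' =
    ((algebraMap (MvPolynomial σ ℚ) (FractionRing (MvPolynomial σ ℚ))).comp
      (MvPolynomial.map (Int.castRingHom ℚ))) a * b := by
  obtain ⟨p, q, hq, rfl⟩ := IsFractionRing.div_surjective (MvPolynomial σ ℚ) b
  obtain ⟨N1, p1, h1, h1'⟩ := den1 p
  obtain ⟨N2, q1, h2, h2'⟩ := den1 q
  have hq0 : q ≠ 0 := nonZeroDivisors.ne_zero hq
  have hqK : (algebraMap (MvPolynomial σ ℚ) (FractionRing (MvPolynomial σ ℚ))) q ≠ 0 := by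
    rw [Ne, FaithfulSMul.algebraMap_eq_zero_iff]
    exact hq0
  refine ⟨MvPolynomial.C N1 * q1, MvPolynomial.C N2 * p1, mul_ne_zero ?_ ?_, ?_⟩
  · rw [Ne, MvPolynomial.C_eq_zero]
    exact h1
  · rintro rfl
    rw [map_zero] at h2'
    rcases mul_eq_zero.1 h2'.symm with h3 | h3
    · rw [MvPolynomial.C_eq_zero] at h3
      exact h2 (by exact_mod_cast h3)
    · exact hq0 h3
  · have e1 : (Int.castRingHom ℚ) N1 = (N1 : ℚ) := rfl
    have e2 : (Int.castRingHom ℚ) N2 = (N2 : ℚ) := rfl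
    have k1 : MvPolynomial.map (Int.castRingHom ℚ) (MvPolynomial.C N2 * p1) =
        MvPolynomial.C (N2 : ℚ) * (MvPolynomial.C (N1 : ℚ) * p) := by
      rw [map_mul, MvPolynomial.map_C, h1', e2]
    have k2 : MvPolynomial.map (Int.castRingHom ℚ) (MvPolynomial.C N1 * q1) =
        MvPolynomial.C (N1 : ℚ) * (MvPolynomial.C (N2 : ℚ) * q) := by
      rw [map_mul, MvPolynomial.map_C, h2', e1]
    rw [RingHom.comp_apply, RingHom.comp_apply, k1, k2, map_mul, map_mul, map_mul, map_mul]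
    field_simp

end Disc

open Disc

/-- DISC -/
theorem disc_ (h : S_LDEG) : S_DISC := by
  intro n D F hhom hsq v hv
  obtain ⟨Φ, hΦ⟩ : ∃ Φ : (MvPolynomial (Fin (n + 1)) ℤ)[X],
    Φ = lin (fun i => MvPolynomial.X i) (fun i => MvPolynomial.C (v i)) F := ⟨_, rfl⟩
  have hspec : ∀ w : Fin (n + 1) → ℤ, Φ.map (MvPolynomial.eval w) = lineP F w v := by
    intro w
    rw [hΦ, lin_map]
    unfold lin lineP
    simp only [MvPolynomial.eval_X, MvPolynomial.eval_C]
  have hcoe : ∀ k, D < k → Φ.coeff k = 0 := by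
    intro k hk
    apply MvPolynomial.funext
    intro w
    rw [map_zero, ← coeff_map, hspec]
    exact coeff_eq_zero_of_natDegree_lt (by rw [(h n D F hhom w v hv).1]; exact hk)
  have hlead : Φ.coeff D = MvPolynomial.C (MvPolynomial.eval v F) := by
    apply MvPolynomial.funext
    intro w
    rw [← coeff_map, hspec, MvPolynomial.eval_C]
    have h1 := (h n D F hhom w v hv)
    rw [← h1.2.1, leadingCoeff, h1.1]
  -- over the rational numbers
  have hF0 : MvPolynomial.map (Int.castRingHom ℚ) F ≠ 0 := by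
    intro h0
    have h1 : F = 0 := MvPolynomial.map_injective _ (Int.cast_injective) (by rw [h0, map_zero])
    rw [h1, map_zero] at hv
    exact hv rfl
  obtain ⟨Ψ, hΨ⟩ : ∃ Ψ, Ψ = Φ.map (MvPolynomial.map (Int.castRingHom ℚ)) := ⟨_, rfl⟩
  have hΨτ : Ψ = τ (fun i => (v i : ℚ)) (C (MvPolynomial.map (Int.castRingHom ℚ) F)) := by
    rw [hΨ, hΦ, lin_map, ← lin_eq_τ]
    congr 1
    · funext i
      rw [MvPolynomial.map_X]
    · funext i
      rw [MvPolynomial.map_C]
      rfl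
  have hΨsq : ∀ g, g * g ∣ Ψ → IsUnit g := by
    intro g hg
    rw [hΨτ] at hg
    exact sqf _ _ hF0 hsq g hg
  obtain ⟨c, hc⟩ : ∃ c : ℚ, c = ((MvPolynomial.eval v F : ℤ) : ℚ) := ⟨_, rfl⟩
  have hc0 : c ≠ 0 := by
    rw [hc]
    exact_mod_cast hv
  obtain ⟨Ψ1, hΨ1⟩ : ∃ Ψ1, Ψ1 = C (MvPolynomial.C c⁻¹) * Ψ := ⟨_, rfl⟩
  have hΨ1' : Ψ = C (MvPolynomial.C c) * Ψ1 := by
    rw [hΨ1, ← mul_assoc, ← C_mul, ← MvPolynomial.C_mul, mul_inv_cancel₀ hc0, MvPolynomial.C_1,
      C_1, one_mul]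
  have hmonic : Ψ1.Monic := by
    apply monic_of_natDegree_le_of_coeff_eq_one D
    · rw [natDegree_le_iff_coeff_eq_zero]
      intro k hk
      rw [hΨ1, coeff_C_mul, hΨ, coeff_map, hcoe k hk, map_zero, mul_zero]
    · rw [hΨ1, coeff_C_mul, hΨ, coeff_map, hlead, MvPolynomial.map_C, ← MvPolynomial.C_mul]
      have : (Int.castRingHom ℚ) (MvPolynomial.eval v F) = c := hc.symm
      rw [this, inv_mul_cancel₀ hc0, MvPolynomial.C_1]
  obtain ⟨ι, hι⟩ : ∃ ι, ι = algebraMap (MvPolynomial (Fin (n + 1)) ℚ)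
    (FractionRing (MvPolynomial (Fin (n + 1)) ℚ)) := ⟨_, rfl⟩
  have hιinj : Function.Injective ι := by
    rw [hι]
    exact IsFractionRing.injective _ _
  have hsqK : Squarefree (Ψ.map ι) := by
    intro g hg
    have hd : Ψ.map ι ∣ Ψ1.map ι := by
      rw [hΨ1, Polynomial.map_mul]
      exact dvd_mul_left _ _
    have hg1 : g * g ∣ Ψ1.map ι := hg.trans hd
    have hg0 : g ≠ 0 := by
      rintro rfl
      rw [zero_mul, zero_dvd_iff] at hg1
      exact (hmonic.map ι).ne_zero hg1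
    have hg2 : g ∣ Ψ1.map ι := (dvd_mul_right g g).trans hg1
    rw [hι] at hg2
    obtain ⟨g', hg'⟩ := IsIntegrallyClosed.eq_map_mul_C_of_dvd
      (FractionRing (MvPolynomial (Fin (n + 1)) ℚ)) hmonic hg2
    rw [← hι] at hg'
    have hl0 : g.leadingCoeff ≠ 0 := leadingCoeff_ne_zero.2 hg0
    have hm : g'.Monic := by
      have h1 := congrArg leadingCoeff hg'
      rw [leadingCoeff_mul, leadingCoeff_C] at h1
      have h2 : (g'.map ι).leadingCoeff = 1 := by
        have h3 : ((g'.map ι).leadingCoeff - 1) * g.leadingCoeff = 0 := by linear_combination h1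
        exact sub_eq_zero.1 ((mul_eq_zero.1 h3).resolve_right hl0)
      rw [leadingCoeff_map_of_injective hιinj] at h2
      exact hιinj (by rw [h2, map_one])
    have hdv : (g' * g').map ι ∣ Ψ1.map ι := by
      refine dvd_trans ?_ hg1
      rw [Polynomial.map_mul]
      exact mul_dvd_mul ⟨_, hg'.symm⟩ ⟨_, hg'.symm⟩
    rw [map_dvd_map ι hιinj (hm.mul hm)] at hdv
    have hu : IsUnit g' := hΨsq g' (hdv.trans ⟨_, by rw [hΨ1', mul_comm]⟩)
    rw [← hg']
    exact (hu.map (Polynomial.mapRingHom ι)).mul ((isUnit_iff_ne_zero.2 hl0).map C)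
  have hsep : (Ψ.map ι).Separable := PerfectField.separable_iff_squarefree.2 hsqK
  obtain ⟨φ, hφ⟩ : ∃ φ : MvPolynomial (Fin (n + 1)) ℤ →+*
    FractionRing (MvPolynomial (Fin (n + 1)) ℚ),
    φ = ι.comp (MvPolynomial.map (Int.castRingHom ℚ)) := ⟨_, rfl⟩
  have hφinj : Function.Injective φ := by
    rw [hφ]
    exact hιinj.comp (MvPolynomial.map_injective _ Int.cast_injective)
  have hden : ∀ b, ∃ a a', a ≠ 0 ∧ φ a' = φ a * b := by
    intro b
    rw [hφ, hι]
    exact den3 b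
  have hΨΦ : Ψ.map ι = Φ.map φ := by
    rw [hΨ, Polynomial.map_map, hφ]
  rw [hΨΦ] at hsep
  obtain ⟨u, z, huz⟩ := hsep
  obtain ⟨a1, u', ha1, hu'⟩ := den2 φ hden u
  obtain ⟨a2, z', ha2, hz'⟩ := den2 φ hden z
  have hB : (C a2 * u') * Φ + (C a1 * z') * derivative Φ = C (a1 * a2) := by
    apply Polynomial.map_injective φ hφinj
    rw [Polynomial.map_add, Polynomial.map_mul, Polynomial.map_mul, Polynomial.map_mul,
      Polynomial.map_mul, map_C, map_C, map_C, hu', hz', ← derivative_map, map_mul, C_mul]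
    linear_combination (C (φ a1) * C (φ a2)) * huz
  obtain ⟨U, hU⟩ : ∃ U, U = C a2 * u' := ⟨_, rfl⟩
  obtain ⟨Z, hZ⟩ : ∃ Z, Z = C a1 * z' := ⟨_, rfl⟩
  rw [← hU, ← hZ] at hB
  refine ⟨a1 * a2, mul_ne_zero ha1 ha2, fun w => ⟨U.map (MvPolynomial.eval w),
    Z.map (MvPolynomial.eval w), ?_⟩⟩
  have h1 := congrArg (Polynomial.map (MvPolynomial.eval w)) hB
  rw [Polynomial.map_add, Polynomial.map_mul, Polynomial.map_mul, ← derivative_map,
    hspec, map_C] at h1
  exact h1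

end Pool.Agent.W460.HB
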